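import Pool.Agent.H80.JE.Targets

/-!
# Module PTH4 of the board je_modules: flipping the coordinates of `F` one after the other
-/

set_option autoImplicit false

namespace Pool.Agent.H54.JE

open Finset Filter Topology Pool.Agent.H80.JD Pool.Agent.H80.JE

/-- the signs of the members of `F` before `t` are reversed -/
def Xt {n : ℕ} (x : Fin n → Bool) (F : Finset (Fin n)) (t : ℕ) : Fin n → Bool :=
  fun i => if i ∈ F ∧ (i : ℕ) < t then !(x i) else x i

lemma ip_Xt {n : ℕ} (g x : Fin n → Bool) (F : Finset (Fin n)) (t : ℕ) :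
    ip g (Xt x F t) = (∑ i ∈ Fᶜ, sg (x i) * sg (g i)) +
      (∑ i ∈ F.filter (fun i : Fin n => (i : ℕ) < n), sg (x i) * sg (g i)) -
      2 * ∑ i ∈ F.filter (fun i : Fin n => (i : ℕ) < t), sg (x i) * sg (g i) := by
  have h1 : (F.filter (fun i : Fin n => (i : ℕ) < n)) = F := by
    rw [Finset.filter_eq_self]
    exact fun i _ => i.2
  have h2 : (∑ i ∈ Fᶜ, sg (x i) * sg (g i)) + (∑ i ∈ F, sg (x i) * sg (g i)) =
      ∑ i, sg (x i) * sg (g i) := Finset.sum_compl_add_sum F _
  have h3 : ∑ i ∈ F.filter (fun i : Fin n => (i : ℕ) < t), sg (x i) * sg (g i) =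
      ∑ i, if i ∈ F ∧ (i : ℕ) < t then sg (x i) * sg (g i) else 0 := by
    rw [← Finset.sum_filter]
    refine Finset.sum_congr ?_ fun _ _ => rfl
    ext i
    simp
  rw [h1, h2, h3, Finset.mul_sum, ← Finset.sum_sub_distrib]
  unfold ip
  refine Finset.sum_congr rfl fun i _ => ?_
  unfold Xt
  by_cases h : i ∈ F ∧ (i : ℕ) < t
  · rw [if_pos h, if_pos h, sg_not]
    ring
  · rw [if_neg h, if_neg h]
    ring

lemma dist_step {n : ℕ} (x : Fin n → Bool) (F : Finset (Fin n)) (t : ℕ) (ht : t < n)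
    (hF : (⟨t, ht⟩ : Fin n) ∈ F) : hammingDist (Xt x F t) (Xt x F (t + 1)) = 1 := by
  unfold hammingDist
  have h1 : (univ.filter (fun i => Xt x F t i ≠ Xt x F (t + 1) i)) = {(⟨t, ht⟩ : Fin n)} := by
    ext i
    simp only [Finset.mem_filter, Finset.mem_univ, true_and, Finset.mem_singleton]
    unfold Xt
    constructor
    · intro h
      by_contra hne
      have hne' : (i : ℕ) ≠ t := fun h' => hne (Fin.ext h')
      apply h
      by_cases h3 : i ∈ F ∧ (i : ℕ) < t
      · rw [if_pos h3, if_pos ⟨h3.1, by omega⟩]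
      · rw [if_neg h3, if_neg]
        rintro ⟨h4, h5⟩
        exact h3 ⟨h4, by omega⟩
    · rintro rfl
      rw [if_neg (fun h => lt_irrefl _ h.2), if_pos ⟨hF, Nat.lt_succ_self _⟩]
      cases x ⟨t, ht⟩ <;> simp
  rw [h1, Finset.card_singleton]

lemma same_step {n : ℕ} (x : Fin n → Bool) (F : Finset (Fin n)) (t : ℕ) (ht : t < n)
    (hF : (⟨t, ht⟩ : Fin n) ∉ F) : Xt x F (t + 1) = Xt x F t := by
  funext i
  unfold Xt
  by_cases h3 : i ∈ F ∧ (i : ℕ) < t
  · rw [if_pos h3, if_pos ⟨h3.1, by omega⟩]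
  · rw [if_neg h3, if_neg]
    rintro ⟨h4, h5⟩
    have h6 : (i : ℕ) = t := by
      by_contra h7
      exact h3 ⟨h4, by omega⟩
    have h8 : i = ⟨t, ht⟩ := Fin.ext h6
    rw [h8] at h4
    exact hF h4

lemma dist_all {n : ℕ} (x : Fin n → Bool) (F : Finset (Fin n)) :
    hammingDist (Xt x F 0) (Xt x F n) = F.card := by
  unfold hammingDist
  congr 1
  ext i
  simp only [Finset.mem_filter, Finset.mem_univ, true_and]
  unfold Xt
  rw [if_neg (fun h => Nat.not_lt_zero _ h.2)]
  by_cases h : i ∈ F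
  · rw [if_pos ⟨h, i.2⟩]
    refine ⟨fun _ => h, fun _ => ?_⟩
    cases x i <;> simp
  · rw [if_neg (fun h' => h h'.1)]
    exact ⟨fun h' => absurd rfl h', fun h' => absurd h' h⟩

theorem pth4 : T_PTH4 := by
  intro m n κ B β G x F hC hS hB
  have hsol : ∀ t : ℕ, t ≤ n → ABP κ G (Xt x F t) := by
    intro t ht j
    rw [ip_Xt]
    have h0 := hC j
    have h1 := hS n le_rfl j
    have h2 := hS t ht j
    push_cast at h0 h1 h2 ⊢
    rw [abs_lt] at h1 h2
    linarith [h1.1, h2.2]
  have hsame : ∀ t : ℕ, t ≤ n → Same (ABP κ G) (Xt x F 0) (Xt x F t) := by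
    intro t
    induction t with
    | zero => intro _; exact same_refl (hsol 0 (Nat.zero_le _))
    | succ t ih =>
      intro ht
      by_cases hF : (⟨t, by omega⟩ : Fin n) ∈ F
      · exact (ih (by omega)).step
          ⟨hsol t (by omega), hsol (t + 1) ht, dist_step x F t (by omega) hF⟩
      · rw [same_step x F t (by omega) hF]
        exact ih (by omega)
  have h1 := le_diam (hsame n le_rfl)
  rw [dist_all] at h1
  exact h1

end Pool.Agent.H54.JE
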